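import Pool.Agent.NNe.Chk

set_option linter.all false
set_option maxRecDepth 1000000
namespace Pool.Agent.NNr.R11_1_5_6

open Pool.Agent.NNe

noncomputable def SI4_0 : Nat := (nat_lit 0xc0300c0300c0300c03008020080200802008020040100401004010040100000000000000000000)
noncomputable def SW4_0 : Nat := (nat_lit 0xf805c03a01500d804c03201100f005803801400d0048030010007801c01a005005800c01200100700180180040050008010000)
noncomputable def RV4_0 : Nat := (nat_lit 0x11400b11400a28800428800320600620600518401118401011400711400628800228800120600220600118400518400411401911401828800928800820600f20600e18402d18402c11401511401428800728800620600b20600a184021184020)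
noncomputable def CO4_0 : Nat := (nat_lit 0xaa80a0aa80a0aa8040aa8040aa8030aa8030aa8020aa80202a80a02a80a02a80402a80402a80302a80302a80202a8020a654a0a654a0a65440a65440a65430a65430a65420a654202654a02654a026544026544026543026543026542026542)
noncomputable def Y4_0_0_2 : Nat := (nat_lit 0x780300080000000000000000000003c01800c000000000000000000000180000000000000000000000000000c00000000000000000000000000000180000000000000000000000000000c000000000000000000000000000180000000000000000000000000000c00000000000000000000000000)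
noncomputable def Y4_0_1_3 : Nat := (nat_lit 0x7800c0040000000000000000000003c0060020010000000000000000001800c0060010000000000000000000c006000000000000000000000000001800c0040020010000000000000000c0060000000000000000000000001800c0040020010000000000000000c00600000000000000000000000)
noncomputable def C4_0 : Cd := (Cd.mk (nat_lit 32) (nat_lit 4) (nat_lit 1024) SI4_0 SW4_0 RV4_0 CO4_0 (Sl.cons (Sd.mk (nat_lit 9) (nat_lit 8) (nat_lit 0) (nat_lit 8) (Sb.cons (nat_lit 8) (nat_lit 0) (nat_lit 8) Sb.nil) (Bl.r Y4_0_0_2 (nat_lit 2) Bl.nil)) (Sl.cons (Sd.mk (nat_lit 41) (nat_lit 8) (nat_lit 8) (nat_lit 8) (Sb.cons (nat_lit 8) (nat_lit 0) (nat_lit 8) Sb.nil) (Bl.r Y4_0_1_3 (nat_lit 3) Bl.nil)) (Sl.cons (Sd.mk (nat_lit 10) (nat_lit 8) (nat_lit 16) (nat_lit 8) (Sb.cons (nat_lit 8) (nat_lit 0) (nat_lit 8) Sb.nil) (Bl.c Y4_0_0_2 (nat_lit 72) (nat_lit 0) Bl.nil)) (Sl.cons (Sd.mk (nat_lit 42) (nat_lit 8) (nat_lit 24) (nat_lit 8) (Sb.cons (nat_lit 8) (nat_lit 0) (nat_lit 8) Sb.nil) (Bl.c Y4_0_1_3 (nat_lit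 72) (nat_lit 1) Bl.nil)) Sl.nil)))))
noncomputable def SI4_1 : Nat := (nat_lit 0x240902409020080200801c0701c070180601806014050100400c020080100400)
noncomputable def SW4_1 : Nat := (nat_lit 0x320150020008030014001800402200d004801c02000c004001801e00b00700280000170098058024005)
noncomputable def RV4_1 : Nat := (nat_lit 0x18401318401218401718401618400718400618400b18400a18402f18402e18403318403218402318402218402718402618404318404218403918403818400018405718405618404d18404c98401c)
noncomputable def CO4_1 : Nat := (nat_lit 0xaa8020aa8020a88820a888202a80202a8020288820288820a65420a65420a55820a558202654202654202558202558209664209664201664201664209004208aa0208aa0200aa0200aa02081102)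
noncomputable def Y4_1_2_0 : Nat := (nat_lit 0x20010008004002001000800400000100080000000000000000000000)
noncomputable def Y4_1_3_5 : Nat := (nat_lit 0x300180080040020010008004000)
noncomputable def Y4_1_6_8 : Nat := (nat_lit 0x780000000000000000000000000003c000000000000000000000000000180000000000000000000000000000c00000000000000000000000000)
noncomputable def Y4_1_7_9 : Nat := (nat_lit 0x7803c01400a0050028014000000003c01e0000000000000000000000001800c0040020010008004000000000c00600000000000000000000000)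
noncomputable def C4_1 : Cd := (Cd.mk (nat_lit 26) (nat_lit 5) (nat_lit 785) SI4_1 SW4_1 RV4_1 CO4_1 (Sl.cons (Sd.mk (nat_lit 32) (nat_lit 0) (nat_lit 0) (nat_lit 1) (Sb.cons (nat_lit 4) (nat_lit 0) (nat_lit 1) Sb.nil) (Bl.c Y4_1_2_0 (nat_lit 18) (nat_lit 2) Bl.nil)) (Sl.cons (Sd.mk (nat_lit 2) (nat_lit 0) (nat_lit 1) (nat_lit 2) (Sb.cons (nat_lit 8) (nat_lit 0) (nat_lit 2) Sb.nil) Bl.nil) (Sl.cons (Sd.mk (nat_lit 34) (nat_lit 0) (nat_lit 3) (nat_lit 2) (Sb.cons (nat_lit 8) (nat_lit 0) (nat_lit 2) Sb.nil) (Bl.r Y4_1_2_0 (nat_lit 0) Bl.nil)) (Sl.cons (Sd.mk (nat_lit 36) (nat_lit 4) (nat_lit 5) (nat_lit 1) (Sb.cons (nat_lit 0) (nat_lit 0) (nat_lit 1) Sb.nil) (Bl.r Y4_1_3_5 (nat_lit 5) Bl.nil)) (Sl.cons (Sd.mk (nat_lit 5) (nat_lit 4) (nat_lit 6) (nat_lit 2) (Sb.cons (nat_lit 8) (nat_lit 0) (nat_lit 2) Sb.nil) Bl.nil) (Sl.cons (Sd.mk (nat_lit 37) (nat_lit 4) (nat_lit 8) (nat_lit 2) (Sb.cons (nat_lit 8) (nat_lit 0) (nat_lit 2) Sb.nil) (Bl.c Y4_1_3_5 (nat_lit 9) (nat_lit 3) Bl.nil)) (Sl.cons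 (Sd.mk (nat_lit 9) (nat_lit 8) (nat_lit 10) (nat_lit 4) (Sb.cons (nat_lit 4) (nat_lit 0) (nat_lit 2) (Sb.cons (nat_lit 8) (nat_lit 2) (nat_lit 2) Sb.nil)) (Bl.r Y4_1_6_8 (nat_lit 8) Bl.nil)) (Sl.cons (Sd.mk (nat_lit 41) (nat_lit 8) (nat_lit 14) (nat_lit 4) (Sb.cons (nat_lit 4) (nat_lit 0) (nat_lit 2) (Sb.cons (nat_lit 8) (nat_lit 2) (nat_lit 2) Sb.nil)) (Bl.r Y4_1_7_9 (nat_lit 9) Bl.nil)) (Sl.cons (Sd.mk (nat_lit 10) (nat_lit 8) (nat_lit 18) (nat_lit 4) (Sb.cons (nat_lit 0) (nat_lit 0) (nat_lit 2) (Sb.cons (nat_lit 8) (nat_lit 2) (nat_lit 2) Sb.nil)) (Bl.c Y4_1_6_8 (nat_lit 36) (nat_lit 6) Bl.nil)) (Sl.cons (Sd.mk (nat_lit 42) (nat_lit 8) (nat_lit 22) (nat_lit 4) (Sb.cons (nat_lit 0) (nat_lit 0) (nat_lit 2) (Sb.cons (nat_lit 8) (nat_lit 2) (nat_lit 2) Sb.nil)) (Bl.c Y4_1_7_9 (nat_lit 36) (nat_lit 7) Bl.nil)) Sl.nil)))))))))))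
noncomputable def SI4_2 : Nat := (nat_lit 0x240902409024090240902409020080200802008020080200801c0701c0701c0701c0701c07018060180601806018060180601405014050140501405014050140501004010040100401004010040100400c0300c030080200802008020080200802008020040100401004010040100401004010000000000)
noncomputable def SW4_2 : Nat := (nat_lit 0x2f81540ba05300d803c03200d00b802c0bc05402e014803400e00c003002c00a025810409203f01b80ac06a029019809c09404002400f806c02a01a00a006402602380f408a03b02180e4062025017808c05a02102300f008803a02100e00600240170088058020001800800200002d81440b204f02b813402a009009801c02200502d01400b004e02b0130028008009001802000400f807803a01c)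
noncomputable def RV4_2 : Nat := (nat_lit 0x11400d11400c18401518401409200909200818401918401810200410200311400911400818400918400809200509200418400d18400c10200210200111401b11401a18403118403009201509201418403518403410200910200811401711401618402518402409201109201018402918402810200710200609201d09201c18404518404410200f10200e18404918404810201110201008000908000809201909201818403b18403a10200b10200a18403f18403e10200d10200c08000108000011400420600018400110200009202509202418405918405810201710201618405d18405c10201910201808001908001809202109202018404f18404e102013102012184053184052102015102014080011080010914012a0600998401d902005)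
noncomputable def CO4_2 : Nat := (nat_lit 0xaa80a0aa80a0aa8020aa8020a88890a88890a88820a88820a88810a888102a80a02a80a02a80202a8020288890288890288820288820288810288810a654a0a654a0a65420a65420a55890a55890a55820a55820a55810a558102654a02654a02654202654202558902558902558202558202558102558109664909664909664209664209664109664109568209568209568109568109568009568001664901664901664201664201664101664101568201568201568101568101568001568009004a09004309004209004108aa0908aa0908aa0208aa0208aa0108aa01088a82088a82088a81088a81088a80088a8000aa0900aa0900aa0200aa0200aa0100aa01008a82008a82008a81008a81008a80008a8008110a081103081102081101)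
noncomputable def Y4_2_2_0 : Nat := (nat_lit 0x2001000000000000000000000000010008004002001000000000000000120090048004002001000800400000900480000000000000000000000001000800400200100080040000000008004000000000000000000000000020010008004000000000000000000100080000000000000000000000001000800400200100080000000000008004000000000000000000000000080040020010000000000000000000400200000000000000000000000)
noncomputable def Y4_2_3_5 : Nat := (nat_lit 0x1800c004000000000000000000000300d806402201100000000000000001980cc0440220110088040000000033019808804402001000800400000)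
noncomputable def Y4_2_6_8 : Nat := (nat_lit 0x780300000000000000000000000003c0180080000000000000000000000180000000000000000000000000000c000000000000000000000000006603300900080040000000000000033019800000000000000000000000181800000000000000000000000000c0c00000000000000000000000000198000000000000000000000000000cc00000000000000000000000000)
noncomputable def Y4_2_7_9 : Nat := (nat_lit 0x7800c0040000000000000000000003c00600000000000000000000000001800c0040020010000000000000000c0060000000000000000000000066000000000000000000000000000330000000000000000000000000001818c0c40400200100080040020000c0c606000000000000000000000001980cc044022011000800400200000cc06600000000000000000000000)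
noncomputable def C4_2 : Cd := (Cd.mk (nat_lit 96) (nat_lit 6) (nat_lit 546) SI4_2 SW4_2 RV4_2 CO4_2 (Sl.cons (Sd.mk (nat_lit 32) (nat_lit 0) (nat_lit 0) (nat_lit 4) (Sb.cons (nat_lit 4) (nat_lit 0) (nat_lit 4) Sb.nil) (Bl.c Y4_2_2_0 (nat_lit 108) (nat_lit 2) Bl.nil)) (Sl.cons (Sd.mk (nat_lit 2) (nat_lit 0) (nat_lit 4) (nat_lit 12) (Sb.cons (nat_lit 0) (nat_lit 0) (nat_lit 6) (Sb.cons (nat_lit 8) (nat_lit 6) (nat_lit 6) Sb.nil)) Bl.nil) (Sl.cons (Sd.mk (nat_lit 34) (nat_lit 0) (nat_lit 16) (nat_lit 12) (Sb.cons (nat_lit 0) (nat_lit 0) (nat_lit 6) (Sb.cons (nat_lit 8) (nat_lit 6) (nat_lit 6) Sb.nil)) (Bl.r Y4_2_2_0 (nat_lit 0) Bl.nil)) (Sl.cons (Sd.mk (nat_lit 36) (nat_lit 4) (nat_lit 28) (nat_lit 4) (Sb.cons (nat_lit 0) (nat_lit 0) (nat_lit 4) Sb.nil) (Bl.r Y4_2_3_5 (nat_lit 5) Bl.nil)) (Sl.cons (Sd.mk (nat_lit 5) (nat_lit 4) (nat_lit 32) (nat_lit 12) (Sb.cons (nat_lit 4) (nat_lit 0) (nat_lit 6) (Sb.cons (nat_lit 8) (nat_lit 6) (nat_lit 6) Sb.nil)) Bl.nil) (Sl.cons (Sd.mk (nat_lit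 37) (nat_lit 4) (nat_lit 44) (nat_lit 12) (Sb.cons (nat_lit 4) (nat_lit 0) (nat_lit 6) (Sb.cons (nat_lit 8) (nat_lit 6) (nat_lit 6) Sb.nil)) (Bl.c Y4_2_3_5 (nat_lit 36) (nat_lit 3) Bl.nil)) (Sl.cons (Sd.mk (nat_lit 9) (nat_lit 8) (nat_lit 56) (nat_lit 10) (Sb.cons (nat_lit 4) (nat_lit 0) (nat_lit 6) (Sb.cons (nat_lit 8) (nat_lit 6) (nat_lit 4) Sb.nil)) (Bl.r Y4_2_6_8 (nat_lit 8) Bl.nil)) (Sl.cons (Sd.mk (nat_lit 41) (nat_lit 8) (nat_lit 66) (nat_lit 10) (Sb.cons (nat_lit 4) (nat_lit 0) (nat_lit 6) (Sb.cons (nat_lit 8) (nat_lit 6) (nat_lit 4) Sb.nil)) (Bl.r Y4_2_7_9 (nat_lit 9) Bl.nil)) (Sl.cons (Sd.mk (nat_lit 10) (nat_lit 8) (nat_lit 76) (nat_lit 10) (Sb.cons (nat_lit 0) (nat_lit 0) (nat_lit 6) (Sb.cons (nat_lit 8) (nat_lit 6) (nat_lit 4) Sb.nil)) (Bl.c Y4_2_6_8 (nat_lit 90) (nat_lit 6) Bl.nil)) (Sl.cons (Sd.mk (nat_lit 42) (nat_lit 8) (nat_lit 86) (nat_lit 10) (Sb.cons (nat_lit 0) (nat_lit 0) (nat_lit 6) (Sb.cons (nat_lit 8) (nat_lit 6) (nat_lit 4) Sb.nil)) (Bl.c Y4_2_7_9 (nat_lit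 90) (nat_lit 7) Bl.nil)) Sl.nil)))))))))))
noncomputable def SI4_3 : Nat := (nat_lit 0x24090200801c07018060140501405010040100400c0200802008010040100400)
noncomputable def SW4_3 : Nat := (nat_lit 0x10004003800c02200d008003002a013007802c028012007002800001900b801800401800b0014002009)
noncomputable def RV4_3 : Nat := (nat_lit 0x9200b09200a09200709200609201709201609201309201209201f09201e08000b08000a09201b09201a08000308000218400209202709202608001b08001a09202309202208001308001298401e)
noncomputable def CO4_3 : Nat := (nat_lit 0xa88890a88890288890288890a55890a558902558902558909664909664909568009568001664901664901568001568009004208aa0908aa09088a80088a8000aa0900aa09008a80008a80081102)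
noncomputable def Y4_3_2_0 : Nat := (nat_lit 0x800400000000000000000000000004002001000800400000000000000020010008004002000000000000000100080000000000000000000000)
noncomputable def Y4_3_3_5 : Nat := (nat_lit 0xf007801800c0060000000000000)
noncomputable def Y4_3_6_8 : Nat := (nat_lit 0x60030010008004000000000000000300180000000000000000000000)
noncomputable def Y4_3_7_9 : Nat := (nat_lit 0x60000000000000000000000000000300000000000000000000000000)
noncomputable def C4_3 : Cd := (Cd.mk (nat_lit 26) (nat_lit 7) (nat_lit 307) SI4_3 SW4_3 RV4_3 CO4_3 (Sl.cons (Sd.mk (nat_lit 32) (nat_lit 0) (nat_lit 0) (nat_lit 1) (Sb.cons (nat_lit 4) (nat_lit 0) (nat_lit 1) Sb.nil) (Bl.c Y4_3_2_0 (nat_lit 36) (nat_lit 2) Bl.nil)) (Sl.cons (Sd.mk (nat_lit 2) (nat_lit 0) (nat_lit 1) (nat_lit 4) (Sb.cons (nat_lit 0) (nat_lit 0) (nat_lit 2) (Sb.cons (nat_lit 8) (nat_lit 2) (nat_lit 2) Sb.nil)) Bl.nil) (Sl.cons (Sd.mk (nat_lit 34) (nat_lit 0) (nat_lit 5) (nat_lit 4) (Sb.cons (nat_lit 0) (nat_lit 0) (nat_lit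 2) (Sb.cons (nat_lit 8) (nat_lit 2) (nat_lit 2) Sb.nil)) (Bl.r Y4_3_2_0 (nat_lit 0) Bl.nil)) (Sl.cons (Sd.mk (nat_lit 36) (nat_lit 4) (nat_lit 9) (nat_lit 1) (Sb.cons (nat_lit 0) (nat_lit 0) (nat_lit 1) Sb.nil) (Bl.r Y4_3_3_5 (nat_lit 5) Bl.nil)) (Sl.cons (Sd.mk (nat_lit 5) (nat_lit 4) (nat_lit 10) (nat_lit 4) (Sb.cons (nat_lit 4) (nat_lit 0) (nat_lit 2) (Sb.cons (nat_lit 8) (nat_lit 2) (nat_lit 2) Sb.nil)) Bl.nil) (Sl.cons (Sd.mk (nat_lit 37) (nat_lit 4) (nat_lit 14) (nat_lit 4) (Sb.cons (nat_lit 4) (nat_lit 0) (nat_lit 2) (Sb.cons (nat_lit 8) (nat_lit 2) (nat_lit 2) Sb.nil)) (Bl.c Y4_3_3_5 (nat_lit 9) (nat_lit 3) Bl.nil)) (Sl.cons (Sd.mk (nat_lit 9) (nat_lit 8) (nat_lit 18) (nat_lit 2) (Sb.cons (nat_lit 4) (nat_lit 0) (nat_lit 2) Sb.nil) (Bl.r Y4_3_6_8 (nat_lit 8) Bl.nil)) (Sl.cons (Sd.mk (nat_lit 41) (nat_lit 8) (nat_lit 20) (nat_lit 2) (Sb.cons (nat_lit 4) (nat_lit 0) (nat_lit 2) Sb.nil) (Bl.r Y4_3_7_9 (nat_lit 9) Bl.nil)) (Sl.cons (Sd.mk (nat_lit 10) (nat_lit 8) (nat_lit 22)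 (nat_lit 2) (Sb.cons (nat_lit 0) (nat_lit 0) (nat_lit 2) Sb.nil) (Bl.c Y4_3_6_8 (nat_lit 18) (nat_lit 6) Bl.nil)) (Sl.cons (Sd.mk (nat_lit 42) (nat_lit 8) (nat_lit 24) (nat_lit 2) (Sb.cons (nat_lit 0) (nat_lit 0) (nat_lit 2) Sb.nil) (Bl.c Y4_3_7_9 (nat_lit 18) (nat_lit 7) Bl.nil)) Sl.nil)))))))))))
noncomputable def SI4_4 : Nat := (nat_lit 0x14050100400c020080100400)
noncomputable def SW4_4 : Nat := (nat_lit 0x120070040018000004001000c002005)
noncomputable def RV4_4 : Nat := (nat_lit 0x8000d08000c08000508000411400508001d08001c080015080014914013)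
noncomputable def CO4_4 : Nat := (nat_lit 0x9568009568001568001568009004a088a80088a80008a80008a8008110a)
noncomputable def Y4_4_2_0 : Nat := (nat_lit 0x20010008004002000000000000000100080000000000000000000000)
noncomputable def Y4_4_3_5 : Nat := (nat_lit 0x300180080040020000000000000)
noncomputable def C4_4 : Cd := (Cd.mk (nat_lit 10) (nat_lit 8) (nat_lit 68) SI4_4 SW4_4 RV4_4 CO4_4 (Sl.cons (Sd.mk (nat_lit 32) (nat_lit 0) (nat_lit 0) (nat_lit 1) (Sb.cons (nat_lit 4) (nat_lit 0) (nat_lit 1) Sb.nil) (Bl.c Y4_4_2_0 (nat_lit 18) (nat_lit 2) Bl.nil)) (Sl.cons (Sd.mk (nat_lit 2) (nat_lit 0) (nat_lit 1) (nat_lit 2) (Sb.cons (nat_lit 0) (nat_lit 0) (nat_lit 2) Sb.nil) Bl.nil) (Sl.cons (Sd.mk (nat_lit 34) (nat_lit 0) (nat_lit 3) (nat_lit 2) (Sb.cons (nat_lit 0) (nat_lit 0) (nat_lit 2) Sb.nil) (Bl.r Y4_4_2_0 (nat_lit 0) Bl.nil)) (Sl.cons (Sd.mk (nat_lit 36) (nat_lit 4) (nat_lit 5) (nat_lit 1) (Sb.cons (nat_lit 0) (nat_lit 0) (nat_lit 1) Sb.nil) (Bl.r Y4_4_3_5 (nat_lit 5) Bl.nil)) (Sl.cons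 (Sd.mk (nat_lit 5) (nat_lit 4) (nat_lit 6) (nat_lit 2) (Sb.cons (nat_lit 4) (nat_lit 0) (nat_lit 2) Sb.nil) Bl.nil) (Sl.cons (Sd.mk (nat_lit 37) (nat_lit 4) (nat_lit 8) (nat_lit 2) (Sb.cons (nat_lit 4) (nat_lit 0) (nat_lit 2) Sb.nil) (Bl.c Y4_4_3_5 (nat_lit 9) (nat_lit 3) Bl.nil)) Sl.nil)))))))
noncomputable def C4_5 : Cd := (Cd.mk (nat_lit 0) (nat_lit 9) (nat_lit 774) (nat_lit 0) (nat_lit 0) (nat_lit 0) (nat_lit 0) Sl.nil)
noncomputable def C4_6 : Cd := (Cd.mk (nat_lit 0) (nat_lit 10) (nat_lit 535) (nat_lit 0) (nat_lit 0) (nat_lit 0) (nat_lit 0) Sl.nil)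
noncomputable def C4_7 : Cd := (Cd.mk (nat_lit 0) (nat_lit 11) (nat_lit 296) (nat_lit 0) (nat_lit 0) (nat_lit 0) (nat_lit 0) Sl.nil)
noncomputable def C4_8 : Cd := (Cd.mk (nat_lit 0) (nat_lit 3) (nat_lit 4608) (nat_lit 0) (nat_lit 0) (nat_lit 0) (nat_lit 0) Sl.nil)
noncomputable def SI4_9 : Nat := (nat_lit 0x280a0280a0280a0280a0240902409020080200801c0701c0701806018060140501405010040100400c0300c03008020080200401004010000000000)
noncomputable def SW4_9 : Nat := (nat_lit 0x7803801a00c0018008002000005801c012005005001801000400b804c02a01100b004802801000f806c03a01900f006803801801780b805a02c013808c04a021013008804802001580a8052028)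
noncomputable def RV4_9 : Nat := (nat_lit 0x91401089200e11400209200291400e89200c11400009200020600820600718401b18401a20600420600318400f18400e20601120601018403718403620600d20600c18402b18402a20601520601418404718404620601320601218403d18403c11402209202e11401e09202a20601920601818405b18405a20601720601618405118405011402009202c11401c092028)
noncomputable def CO4_9 : Nat := (nat_lit 0x311ca0311c90310ca0310c90301ca0301c90300ca0300c90a88830a88830a88820a88820288830288830288820288820a55830a55830a55820a558202558302558302558202558209664309664309664209664201664301664301664201664201334a01334901330a01330908aa0308aa0308aa0208aa0200aa0300aa0300aa0200aa0200334a00334900330a003309)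
noncomputable def Y4_9_1_0 : Nat := (nat_lit 0x2801400a0050000000000000000001400a0000000000000000000000001e00f0078028000000000000000000f00780000000000000000000000)
noncomputable def Y4_9_3_4 : Nat := (nat_lit 0x1800c0040020000000000000000003c01e00a004000000000000000000060030010008000000000000000000f00780280100000000000000000)
noncomputable def Y4_9_6_8 : Nat := (nat_lit 0x180000000000000000000000000000c000000000000000000000000000180000000000000000000000000000c00000000000000000000000000)
noncomputable def Y4_9_7_9 : Nat := (nat_lit 0x1800c0000000000000000000000000c0060010008000000000000000001800c0000000000000000000000000c00600100080000000000000000)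
noncomputable def Y4_9_10_10 : Nat := (nat_lit 0x80040020000000000000000000000c0060030008000000000000000000000000000000000000000000000000000000000000000000000000000080040020000000000000000000000c006003000800000000000000000)
noncomputable def C4_9 : Cd := (Cd.mk (nat_lit 48) (nat_lit 4) (nat_lit 4369) SI4_9 SW4_9 RV4_9 CO4_9 (Sl.cons (Sd.mk (nat_lit 0) (nat_lit 0) (nat_lit 0) (nat_lit 4) (Sb.cons (nat_lit 12) (nat_lit 0) (nat_lit 4) Sb.nil) (Bl.c Y4_9_1_0 (nat_lit 36) (nat_lit 1) Bl.nil)) (Sl.cons (Sd.mk (nat_lit 2) (nat_lit 0) (nat_lit 4) (nat_lit 4) (Sb.cons (nat_lit 8) (nat_lit 0) (nat_lit 4) Sb.nil) (Bl.r Y4_9_1_0 (nat_lit 0) Bl.nil)) (Sl.cons (Sd.mk (nat_lit 34) (nat_lit 0) (nat_lit 8) (nat_lit 4) (Sb.cons (nat_lit 8) (nat_lit 0) (nat_lit 4) Sb.nil) Bl.nil) (Sl.cons (Sd.mk (nat_lit 4) (nat_lit 4) (nat_lit 12) (nat_lit 4) (Sb.cons (nat_lit 12) (nat_lit 0) (nat_lit 4) Sb.nil) (Bl.r Y4_9_3_4 (nat_lit 4) Bl.nil)) (Sl.cons (Sd.mk (nat_lit 5) (nat_lit 4) (nat_lit 16) (nat_lit 4) (Sb.cons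 (nat_lit 8) (nat_lit 0) (nat_lit 4) Sb.nil) (Bl.c Y4_9_3_4 (nat_lit 36) (nat_lit 3) Bl.nil)) (Sl.cons (Sd.mk (nat_lit 37) (nat_lit 4) (nat_lit 20) (nat_lit 4) (Sb.cons (nat_lit 8) (nat_lit 0) (nat_lit 4) Sb.nil) Bl.nil) (Sl.cons (Sd.mk (nat_lit 9) (nat_lit 8) (nat_lit 24) (nat_lit 4) (Sb.cons (nat_lit 4) (nat_lit 0) (nat_lit 4) Sb.nil) (Bl.r Y4_9_6_8 (nat_lit 8) Bl.nil)) (Sl.cons (Sd.mk (nat_lit 41) (nat_lit 8) (nat_lit 28) (nat_lit 4) (Sb.cons (nat_lit 4) (nat_lit 0) (nat_lit 4) Sb.nil) (Bl.r Y4_9_7_9 (nat_lit 9) Bl.nil)) (Sl.cons (Sd.mk (nat_lit 10) (nat_lit 8) (nat_lit 32) (nat_lit 4) (Sb.cons (nat_lit 0) (nat_lit 0) (nat_lit 4) Sb.nil) (Bl.c Y4_9_6_8 (nat_lit 36) (nat_lit 6) Bl.nil)) (Sl.cons (Sd.mk (nat_lit 42) (nat_lit 8) (nat_lit 36) (nat_lit 4) (Sb.cons (nat_lit 0) (nat_lit 0) (nat_lit 4) Sb.nil) (Bl.c Y4_9_7_9 (nat_lit 36) (nat_lit 7) Bl.nil)) (Sl.cons (Sd.mk (nat_lit 12) (nat_lit 12) (nat_lit 40) (nat_lit 8) (Sb.cons (nat_lit 0) (nat_lit 0) (nat_lit 4) (Sb.cons (nat_lit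 4) (nat_lit 4) (nat_lit 4) Sb.nil)) (Bl.r Y4_9_10_10 (nat_lit 10) (Bl.c Y4_9_10_10 (nat_lit 72) (nat_lit 10) Bl.nil))) Sl.nil))))))))))))
noncomputable def SI4_10 : Nat := (nat_lit 0x200802008020080200801c0701c07018060180601405010040100400c0300c030080200802004010000000000)
noncomputable def SW4_10 : Nat := (nat_lit 0x8804001e00e001800800200000d805c03201500d00580300140028010046022010808001a009005801c018008005001802601200f807803a01c)
noncomputable def RV4_10 : Nat := (nat_lit 0x91401189200f11400309200391400f89200d11400109200118404b18404a08000f08000e18404118404008000708000628800018400311402309202f11401f09202b18405f18405e08001f08001e184055184054080017080016a8800598401f11402109202d11401d092029)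
noncomputable def CO4_10 : Nat := (nat_lit 0x311ca0311c90310ca0310c90301ca0301c90300ca0300c909568209568209568009568001568201568201568001568009004409004201334a01334901330a013309088a82088a82088a80088a80008a82008a82008a80008a8008110408110200334a00334900330a003309)
noncomputable def Y4_10_2_0 : Nat := (nat_lit 0x2801400a0000000000000000000001400a0000000000000000000000001400a0050000000000000000000000a00500000000000000000000000)
noncomputable def Y4_10_3_1 : Nat := (nat_lit 0x800400000000000000000000000004002001000000000000000000000040020000000000000000000000000200100080040000000000000000)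
noncomputable def Y4_10_4_6 : Nat := (nat_lit 0x1800c00400000000000000000000030018008000000000000000000000060030010000000000000000000000c00600200000000000000000000)
noncomputable def Y4_10_5_7 : Nat := (nat_lit 0x60030008004000000000000000000c00600100000000000000000000)
noncomputable def Y4_10_8_8 : Nat := (nat_lit 0x100080040000000000000000000000400200100080000000000000000000000000000000000000000000000000000000000000000000000000001000800400000000000000000000004002001000800000000000000000)
noncomputable def C4_10 : Cd := (Cd.mk (nat_lit 36) (nat_lit 5) (nat_lit 4130) SI4_10 SW4_10 RV4_10 CO4_10 (Sl.cons (Sd.mk (nat_lit 0) (nat_lit 0) (nat_lit 0) (nat_lit 4) (Sb.cons (nat_lit 12) (nat_lit 0) (nat_lit 4) Sb.nil) (Bl.c Y4_10_2_0 (nat_lit 36) (nat_lit 2) Bl.nil)) (Sl.cons (Sd.mk (nat_lit 32) (nat_lit 0) (nat_lit 4) (nat_lit 2) (Sb.cons (nat_lit 4) (nat_lit 0) (nat_lit 2) Sb.nil) (Bl.c Y4_10_3_1 (nat_lit 36) (nat_lit 3) Bl.nil)) (Sl.cons (Sd.mk (nat_lit 2) (nat_lit 0) (nat_lit 6) (nat_lit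 4) (Sb.cons (nat_lit 0) (nat_lit 0) (nat_lit 4) Sb.nil) (Bl.r Y4_10_2_0 (nat_lit 0) Bl.nil)) (Sl.cons (Sd.mk (nat_lit 34) (nat_lit 0) (nat_lit 10) (nat_lit 4) (Sb.cons (nat_lit 0) (nat_lit 0) (nat_lit 4) Sb.nil) (Bl.r Y4_10_3_1 (nat_lit 1) Bl.nil)) (Sl.cons (Sd.mk (nat_lit 4) (nat_lit 4) (nat_lit 14) (nat_lit 4) (Sb.cons (nat_lit 12) (nat_lit 0) (nat_lit 4) Sb.nil) (Bl.r Y4_10_4_6 (nat_lit 6) Bl.nil)) (Sl.cons (Sd.mk (nat_lit 36) (nat_lit 4) (nat_lit 18) (nat_lit 2) (Sb.cons (nat_lit 0) (nat_lit 0) (nat_lit 2) Sb.nil) (Bl.r Y4_10_5_7 (nat_lit 7) Bl.nil)) (Sl.cons (Sd.mk (nat_lit 5) (nat_lit 4) (nat_lit 20) (nat_lit 4) (Sb.cons (nat_lit 4) (nat_lit 0) (nat_lit 4) Sb.nil) (Bl.c Y4_10_4_6 (nat_lit 36) (nat_lit 4) Bl.nil)) (Sl.cons (Sd.mk (nat_lit 37) (nat_lit 4) (nat_lit 24) (nat_lit 4) (Sb.cons (nat_lit 4) (nat_lit 0) (nat_lit 4) Sb.nil) (Bl.c Y4_10_5_7 (nat_lit 18) (nat_lit 5) Bl.nil)) (Sl.cons (Sd.mk (nat_lit 12) (nat_lit 12) (nat_lit 28) (nat_lit 8) (Sb.cons (nat_lit 0) (nat_lit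 0) (nat_lit 4) (Sb.cons (nat_lit 4) (nat_lit 4) (nat_lit 4) Sb.nil)) (Bl.r Y4_10_8_8 (nat_lit 8) (Bl.c Y4_10_8_8 (nat_lit 72) (nat_lit 8) Bl.nil))) Sl.nil))))))))))
noncomputable def C4_11 : Cd := (Cd.mk (nat_lit 0) (nat_lit 8) (nat_lit 4358) (nat_lit 0) (nat_lit 0) (nat_lit 0) (nat_lit 0) Sl.nil)
noncomputable def C4_12 : Cd := (Cd.mk (nat_lit 0) (nat_lit 9) (nat_lit 4119) (nat_lit 0) (nat_lit 0) (nat_lit 0) (nat_lit 0) Sl.nil)
noncomputable def CL4 : Cl := (Cl.cons C4_0 (Cl.cons C4_1 (Cl.cons C4_2 (Cl.cons C4_3 (Cl.cons C4_4 (Cl.cons C4_5 (Cl.cons C4_6 (Cl.cons C4_7 (Cl.cons C4_8 (Cl.cons C4_9 (Cl.cons C4_10 (Cl.cons C4_11 (Cl.cons C4_12 Cl.nil)))))))))))))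
noncomputable def AL4_0 : Nat := (nat_lit 0x1ef)
noncomputable def A44_0 : Nat := (nat_lit 0x1ef)
noncomputable def IX4_0 : Nat := (nat_lit 0xf807802e01600e807002a01400d806802601200c80600220100000000000000007803800e006006803000a00400580280060020048020002000)
noncomputable def OL4_0 : Nat := (nat_lit 0x46008800f801e0036006800b80160042008000e801c0032006000a8014001e0038005800a000e00180018002001a00300048008000a00100008000)
noncomputable def AL4_1 : Nat := (nat_lit 0x6f6)
noncomputable def A44_1 : Nat := (nat_lit 0x6f6)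
noncomputable def IX4_1 : Nat := (nat_lit 0xc806002a01400b80580260120000000000000008804001a00c007803801600a004802000e00600280000000000000000000000002000c00400100000000000000000000000000)
noncomputable def OL4_1 : Nat := (nat_lit 0x15802a004e00980148028004a009000f801e0036006800e801c0032006000b8016002a0050009800b001400240040007)
noncomputable def AL4_2 : Nat := (nat_lit 0x5b777c4eb397)
noncomputable def A44_2 : Nat := (nat_lit 0x5b777c4eb397)
noncomputable def IX4_2 : Nat := (nat_lit 0x2f81780aa054000000000000002e81700a605202d81680a2050000000000000002c816009e04e02b815809a04c00000000000000258128082040024812007e03e023811807a03c0000000000000022811007603a021810807203801b80d805602a000000000000001a80d005202801980c804e02601880c004a02401780b804602201680b004202000000000000000000000000000000000000000000f80000000000000000000000000000000000000f000000000000e800000000000e0000000000000000000000000d806801e00e000000000000000c806001a00c00b805801600a0000000000000000000000000000a8050012008009804800e006008804000a0040000000000000000000000000000180000000000000000000000001000000000000080000000000000000000000)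
noncomputable def OL4_2 : Nat := (nat_lit 0x17602e805980b2015e02b805380a60146028805c80b8016202c005680ac014a029005080a00136026804b809601260248045808a010e021804c8098012a025004880900112022004280840106020803d807a00ee01d8039807200de01b8035806a0102020003c807800ea01d0038807000da01b0034806800b6013c0258047007e00f801b8036006600c801380260046008800f801e007a00f001a8034006200c001280240042008000e801c0026002c0038003)
noncomputable def AL4_3 : Nat := (nat_lit 0x548028408)
noncomputable def A44_3 : Nat := (nat_lit 0x548028408)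
noncomputable def IX4_3 : Nat := (nat_lit 0xc806002e016000000000000000a80500260120000000000000008804001a00c00000000000000000000000000007803801600a00000000000000000000000000000000000000000000000000000000000000000000000000000000000000000000000000000000000000000000000480000000000000000000000004001c008003000000000000000000000000000000000000000000000000000000300140040010000000000000000000000000000000000000000000000000000000000000000000000000000000000000000000000000000000000000000000000000000000000)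
noncomputable def OL4_3 : Nat := (nat_lit 0x45808a0112022004180820102020003d807a00de01b803c807800da01b0023803f007c00ac015003d007800a4014000f)
noncomputable def AL4_4 : Nat := (nat_lit 0xf)
noncomputable def A44_4 : Nat := (nat_lit 0xf)
noncomputable def IX4_4 : Nat := (nat_lit 0x4802000e0060028000000000002000c0040010000000000000)
noncomputable def OL4_4 : Nat := (nat_lit 0x7800e001a00300058007000c00140020003)
noncomputable def AL4_5 : Nat := (nat_lit 0)
noncomputable def A44_5 : Nat := (nat_lit 0)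
noncomputable def IX4_5 : Nat := (nat_lit 0)
noncomputable def OL4_5 : Nat := (nat_lit 0)
noncomputable def AL4_6 : Nat := (nat_lit 0)
noncomputable def A44_6 : Nat := (nat_lit 0)
noncomputable def IX4_6 : Nat := (nat_lit 0)
noncomputable def OL4_6 : Nat := (nat_lit 0)
noncomputable def AL4_7 : Nat := (nat_lit 0)
noncomputable def A44_7 : Nat := (nat_lit 0)
noncomputable def IX4_7 : Nat := (nat_lit 0)
noncomputable def OL4_7 : Nat := (nat_lit 0)
noncomputable def AL4_8 : Nat := (nat_lit 0)
noncomputable def A44_8 : Nat := (nat_lit 0)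
noncomputable def IX4_8 : Nat := (nat_lit 0)
noncomputable def OL4_8 : Nat := (nat_lit 0)
noncomputable def AL4_9 : Nat := (nat_lit 0x3c3c00606607800c3c0)
noncomputable def A44_9 : Nat := (nat_lit 0x3c3c00606607800c3c0)
noncomputable def IX4_9 : Nat := (nat_lit 0x2f000000000002e000000000002d000000000002c0000000000000000000000000000000000000000000000000000000000000002b000000000002a00000000000290000000000028000000000000000000000000000000000000000000000000000000000000000000000000000000000000000000000000000000000000000000000000000000000000000000000000138098046022012809004202000000000000000000000000000000000000000000000000000000000000000000000000000000000f807803601a00e80700320180000000000000000000000000000b805802601200a8050022010000000000000000000000000000000000000000000000000000000000000000000000000000000000000000000f000000000000e000000000000d000000000000c00000000000000000000000000000000000000000000000000000000000000000000000000000000000000000000000000000000000000000000000000000000000000000000000005802800e006004802000a00400000000000000000000000000000000000000000000000000000000000000003000000000000200000000000010000000000000000000000000000000000000000000000000000000000000000000000000000000000000000000)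
noncomputable def OL4_9 : Nat := (nat_lit 0x248048008e01180208040007e00f80196032806380c60192032006280c4015602a805380a6015202a005280a40136026804b80960132026004a809400f001d0038006c007e00f801d803a007a00f001c80380048008000e0018)
noncomputable def AL4_10 : Nat := (nat_lit 0x3cf281e618f5)
noncomputable def A44_10 : Nat := (nat_lit 0x3cf281e618f5)
noncomputable def IX4_10 : Nat := (nat_lit 0x2300000000000220000000000021000000000002000000000000000000000000000000000000001f000000000001e000000000001d000000000001c0000000000000000000000000000d806802e016000000000000000c806002a01400000000000000000000000000000000000000000000000000000000000000000000000000000000000000000110000000000010000000000000f000000000000e000000000000000000000000000098000000000009000000000000000000000000000000000000000000000000000000000000000068030012008005802800e00600000000000000000000000000000000000000000000000000030000000000002000000000000100000000000000000000000000002800000000000000000000000020000000000)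
noncomputable def OL4_10 : Nat := (nat_lit 0x16802c005600a80138026004a0090010e021803f807e010a021003e807c0096011c030005c00b001500198032005e00b80188030005a00b000580030038006000a0010)
noncomputable def AL4_11 : Nat := (nat_lit 0)
noncomputable def A44_11 : Nat := (nat_lit 0)
noncomputable def IX4_11 : Nat := (nat_lit 0)
noncomputable def OL4_11 : Nat := (nat_lit 0)
noncomputable def AL4_12 : Nat := (nat_lit 0)
noncomputable def A44_12 : Nat := (nat_lit 0)
noncomputable def IX4_12 : Nat := (nat_lit 0)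
noncomputable def OL4_12 : Nat := (nat_lit 0)
noncomputable def TL4 : Tl := (Tl.cons (Tr.mk AL4_0 A44_0 IX4_0 OL4_0) (Tl.cons (Tr.mk AL4_1 A44_1 IX4_1 OL4_1) (Tl.cons (Tr.mk AL4_2 A44_2 IX4_2 OL4_2) (Tl.cons (Tr.mk AL4_3 A44_3 IX4_3 OL4_3) (Tl.cons (Tr.mk AL4_4 A44_4 IX4_4 OL4_4) (Tl.cons (Tr.mk AL4_5 A44_5 IX4_5 OL4_5) (Tl.cons (Tr.mk AL4_6 A44_6 IX4_6 OL4_6) (Tl.cons (Tr.mk AL4_7 A44_7 IX4_7 OL4_7) (Tl.cons (Tr.mk AL4_8 A44_8 IX4_8 OL4_8) (Tl.cons (Tr.mk AL4_9 A44_9 IX4_9 OL4_9) (Tl.cons (Tr.mk AL4_10 A44_10 IX4_10 OL4_10) (Tl.cons (Tr.mk AL4_11 A44_11 IX4_11 OL4_11) (Tl.cons (Tr.mk AL4_12 A44_12 IX4_12 OL4_12) Tl.nil)))))))))))))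
noncomputable def ZL4_0 : Zl := (Zl.cons (nat_lit 0) (nat_lit 0) (nat_lit 0) (Zl.cons (nat_lit 0) (nat_lit 0) (nat_lit 0) (Zl.cons (nat_lit 0) (nat_lit 0) (nat_lit 0) (Zl.cons (nat_lit 0) (nat_lit 0) (nat_lit 0) (Zl.cons (nat_lit 0) (nat_lit 0) (nat_lit 0) (Zl.cons (nat_lit 0) (nat_lit 0) (nat_lit 0) (Zl.cons (nat_lit 0) (nat_lit 0) (nat_lit 0) (Zl.cons (nat_lit 0) (nat_lit 0) (nat_lit 0) (Zl.cons (nat_lit 0) (nat_lit 0) (nat_lit 0) (Zl.cons (nat_lit 12) (nat_lit 0) (nat_lit 4) (Zl.cons (nat_lit 14) (nat_lit 4) (nat_lit 4) (Zl.cons (nat_lit 0) (nat_lit 0) (nat_lit 0) (Zl.cons (nat_lit 0) (nat_lit 0) (nat_lit 0) Zl.nil)))))))))))))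
noncomputable def ZL4_1 : Zl := (Zl.cons (nat_lit 0) (nat_lit 0) (nat_lit 0) (Zl.cons (nat_lit 5) (nat_lit 0) (nat_lit 1) (Zl.cons (nat_lit 28) (nat_lit 1) (nat_lit 4) (Zl.cons (nat_lit 9) (nat_lit 5) (nat_lit 1) (Zl.cons (nat_lit 5) (nat_lit 6) (nat_lit 1) (Zl.cons (nat_lit 0) (nat_lit 0) (nat_lit 0) (Zl.cons (nat_lit 0) (nat_lit 0) (nat_lit 0) (Zl.cons (nat_lit 0) (nat_lit 0) (nat_lit 0) (Zl.cons (nat_lit 0) (nat_lit 0) (nat_lit 0) (Zl.cons (nat_lit 0) (nat_lit 0) (nat_lit 0) (Zl.cons (nat_lit 18) (nat_lit 7) (nat_lit 2) (Zl.cons (nat_lit 0) (nat_lit 0) (nat_lit 0) (Zl.cons (nat_lit 0) (nat_lit 0) (nat_lit 0) Zl.nil)))))))))))))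
noncomputable def ZZ4 : ZZ := (ZZ.cons ZL4_0 (ZZ.cons ZL4_1 ZZ.nil))

end Pool.Agent.NNr.R11_1_5_6
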