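import Pool.Agent.NNr.R11_1_5_6.D0
import Pool.Agent.NNr.R11_1_5_6.D1
import Pool.Agent.NNr.R11_1_5_6.D2
import Pool.Agent.NNr.R11_1_5_6.D3
import Pool.Agent.NNr.R11_1_5_6.D4
import Pool.Agent.NNe.Slots

set_option linter.all false
set_option maxRecDepth 1000000
namespace Pool.Agent.NNr.R11_1_5_6

open Pool.Agent.NNe

def ti1_1 : tileCk (nat_lit 61) (nat_lit 13) (nat_lit 2) (nat_lit 6) (nat_lit 196) (nat_lit 11) (nat_lit 13) ZL1_1 CL1 = true := by decide +kernel
def zl1_1 : zlOK (nat_lit 196) ZL1_1 = true := by decide +kernel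
def tc1_0 : tiCov (nat_lit 1) (nat_lit 0) ZZ1 C1_0 = true := by decide +kernel
def tc1_1 : tiCov (nat_lit 1) (nat_lit 1) ZZ1 C1_1 = true := by decide +kernel
def tc1_2 : tiCov (nat_lit 1) (nat_lit 2) ZZ1 C1_2 = true := by decide +kernel
def tc1_3 : tiCov (nat_lit 1) (nat_lit 3) ZZ1 C1_3 = true := by decide +kernel
def tc1_4 : tiCov (nat_lit 1) (nat_lit 4) ZZ1 C1_4 = true := by decide +kernel
def tc1_8 : tiCov (nat_lit 1) (nat_lit 8) ZZ1 C1_8 = true := by decide +kernel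
def tc1_9 : tiCov (nat_lit 1) (nat_lit 9) ZZ1 C1_9 = true := by decide +kernel
def tc1_10 : tiCov (nat_lit 1) (nat_lit 10) ZZ1 C1_10 = true := by decide +kernel
def tc1_11 : tiCov (nat_lit 1) (nat_lit 11) ZZ1 C1_11 = true := by decide +kernel
def wf2_0 : wfC (nat_lit 44) (nat_lit 31) C2_0 = true := by decide +kernel
def rf2_0 : rfCk (nat_lit 61) (nat_lit 13) (nat_lit 44) (nat_lit 31) (nat_lit 9) (nat_lit 0) (nat_lit 0) TL2 CL1 CL2 = true := by decide +kernel
def st2_0_0 : starCk (nat_lit 44) (nat_lit 31) (nat_lit 1) (nat_lit 15) (nat_lit 7) (nat_lit 0) (nat_lit 256) C2_0 = true := by decide +kernel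
def sc2_0 : stCov (nat_lit 2) (nat_lit 0) (Rl.cons (nat_lit 0) (nat_lit 7) Rl.nil) C2_0 = true := by decide +kernel
def wf2_1 : wfC (nat_lit 44) (nat_lit 31) C2_1 = true := by decide +kernel
def rf2_1 : rfCk (nat_lit 61) (nat_lit 13) (nat_lit 44) (nat_lit 31) (nat_lit 9) (nat_lit 0) (nat_lit 1) TL2 CL1 CL2 = true := by decide +kernel
def st2_1_0 : starCk (nat_lit 44) (nat_lit 31) (nat_lit 1) (nat_lit 15) (nat_lit 12) (nat_lit 13) (nat_lit 1) C2_1 = true := by decide +kernel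
def sc2_1 : stCov (nat_lit 0) (nat_lit 13) (Rl.cons (nat_lit 13) (nat_lit 12) Rl.nil) C2_1 = true := by decide +kernel
def wf2_2 : wfC (nat_lit 44) (nat_lit 31) C2_2 = true := by decide +kernel
def rf2_2 : rfCk (nat_lit 61) (nat_lit 13) (nat_lit 44) (nat_lit 31) (nat_lit 9) (nat_lit 0) (nat_lit 2) TL2 CL1 CL2 = true := by decide +kernel
def st2_2_0 : starCk (nat_lit 44) (nat_lit 31) (nat_lit 1) (nat_lit 15) (nat_lit 18) (nat_lit 93) (nat_lit 256) C2_2 = true := by decide +kernel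
def sc2_2 : stCov (nat_lit 2) (nat_lit 93) (Rl.cons (nat_lit 93) (nat_lit 18) Rl.nil) C2_2 = true := by decide +kernel
def wf2_3 : wfC (nat_lit 44) (nat_lit 31) C2_3 = true := by decide +kernel
def rf2_3 : rfCk (nat_lit 61) (nat_lit 13) (nat_lit 44) (nat_lit 31) (nat_lit 9) (nat_lit 0) (nat_lit 3) TL2 CL1 CL2 = true := by decide +kernel
def st2_3_0 : starCk (nat_lit 44) (nat_lit 31) (nat_lit 1) (nat_lit 15) (nat_lit 9) (nat_lit 85) (nat_lit 256) C2_3 = true := by decide +kernel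
def sc2_3 : stCov (nat_lit 2) (nat_lit 85) (Rl.cons (nat_lit 85) (nat_lit 9) Rl.nil) C2_3 = true := by decide +kernel
def wf2_4 : wfC (nat_lit 44) (nat_lit 31) C2_4 = true := by decide +kernel
def rf2_4 : rfCk (nat_lit 61) (nat_lit 13) (nat_lit 44) (nat_lit 31) (nat_lit 9) (nat_lit 0) (nat_lit 4) TL2 CL1 CL2 = true := by decide +kernel
def st2_4_0 : starCk (nat_lit 44) (nat_lit 31) (nat_lit 1) (nat_lit 15) (nat_lit 12) (nat_lit 27) (nat_lit 16) C2_4 = true := by decide +kernel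
def sc2_4 : stCov (nat_lit 1) (nat_lit 27) (Rl.cons (nat_lit 27) (nat_lit 12) Rl.nil) C2_4 = true := by decide +kernel
def wf2_8 : wfC (nat_lit 44) (nat_lit 31) C2_8 = true := by decide +kernel
def rf2_8 : rfCk (nat_lit 61) (nat_lit 13) (nat_lit 44) (nat_lit 31) (nat_lit 9) (nat_lit 0) (nat_lit 8) TL2 CL1 CL2 = true := by decide +kernel
def st2_8_0 : starCk (nat_lit 44) (nat_lit 31) (nat_lit 1) (nat_lit 15) (nat_lit 86) (nat_lit 107) (nat_lit 4096) C2_8 = true := by decide +kernel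
def sc2_8 : stCov (nat_lit 3) (nat_lit 107) (Rl.cons (nat_lit 107) (nat_lit 86) Rl.nil) C2_8 = true := by decide +kernel
def wf2_9 : wfC (nat_lit 44) (nat_lit 31) C2_9 = true := by decide +kernel
def rf2_9 : rfCk (nat_lit 61) (nat_lit 13) (nat_lit 44) (nat_lit 31) (nat_lit 9) (nat_lit 0) (nat_lit 9) TL2 CL1 CL2 = true := by decide +kernel
def st2_9_0 : starCk (nat_lit 44) (nat_lit 31) (nat_lit 1) (nat_lit 15) (nat_lit 41) (nat_lit 106) (nat_lit 16) C2_9 = true := by decide +kernel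
def sc2_9 : stCov (nat_lit 1) (nat_lit 106) (Rl.cons (nat_lit 106) (nat_lit 41) Rl.nil) C2_9 = true := by decide +kernel
def wf2_10 : wfC (nat_lit 44) (nat_lit 31) C2_10 = true := by decide +kernel
def rf2_10 : rfCk (nat_lit 61) (nat_lit 13) (nat_lit 44) (nat_lit 31) (nat_lit 9) (nat_lit 0) (nat_lit 10) TL2 CL1 CL2 = true := by decide +kernel
def st2_10_0 : starCk (nat_lit 44) (nat_lit 31) (nat_lit 1) (nat_lit 15) (nat_lit 45) (nat_lit 87) (nat_lit 16) C2_10 = true := by decide +kernel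
def sc2_10 : stCov (nat_lit 1) (nat_lit 87) (Rl.cons (nat_lit 87) (nat_lit 45) Rl.nil) C2_10 = true := by decide +kernel
def wf2_11 : wfC (nat_lit 44) (nat_lit 31) C2_11 = true := by decide +kernel
def rf2_11 : rfCk (nat_lit 61) (nat_lit 13) (nat_lit 44) (nat_lit 31) (nat_lit 9) (nat_lit 0) (nat_lit 11) TL2 CL1 CL2 = true := by decide +kernel
def st2_11_0 : starCk (nat_lit 44) (nat_lit 31) (nat_lit 1) (nat_lit 15) (nat_lit 1) (nat_lit 24) (nat_lit 256) C2_11 = true := by decide +kernel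
def sc2_11 : stCov (nat_lit 2) (nat_lit 24) (Rl.cons (nat_lit 24) (nat_lit 1) Rl.nil) C2_11 = true := by decide +kernel
def ti2_0 : tileCk (nat_lit 44) (nat_lit 31) (nat_lit 2) (nat_lit 15) (nat_lit 127) (nat_lit 11) (nat_lit 13) ZL2_0 CL2 = true := by decide +kernel
def zl2_0 : zlOK (nat_lit 127) ZL2_0 = true := by decide +kernel
def ti2_1 : tileCk (nat_lit 44) (nat_lit 31) (nat_lit 2) (nat_lit 15) (nat_lit 23) (nat_lit 11) (nat_lit 13) ZL2_1 CL2 = true := by decide +kernel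
def zl2_1 : zlOK (nat_lit 23) ZL2_1 = true := by decide +kernel
def tc2_0 : tiCov (nat_lit 1) (nat_lit 0) ZZ2 C2_0 = true := by decide +kernel
def tc2_1 : tiCov (nat_lit 1) (nat_lit 1) ZZ2 C2_1 = true := by decide +kernel
def tc2_2 : tiCov (nat_lit 1) (nat_lit 2) ZZ2 C2_2 = true := by decide +kernel
def tc2_3 : tiCov (nat_lit 1) (nat_lit 3) ZZ2 C2_3 = true := by decide +kernel
def tc2_4 : tiCov (nat_lit 1) (nat_lit 4) ZZ2 C2_4 = true := by decide +kernel
def tc2_8 : tiCov (nat_lit 1) (nat_lit 8) ZZ2 C2_8 = true := by decide +kernel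
def tc2_9 : tiCov (nat_lit 1) (nat_lit 9) ZZ2 C2_9 = true := by decide +kernel
def tc2_10 : tiCov (nat_lit 1) (nat_lit 10) ZZ2 C2_10 = true := by decide +kernel
def tc2_11 : tiCov (nat_lit 1) (nat_lit 11) ZZ2 C2_11 = true := by decide +kernel
def wf3_0 : wfC (nat_lit 26) (nat_lit 11) C3_0 = true := by decide +kernel
def rf3_0 : rfCk (nat_lit 44) (nat_lit 31) (nat_lit 26) (nat_lit 11) (nat_lit 9) (nat_lit 0) (nat_lit 0) TL3 CL2 CL3 = true := by decide +kernel
def st3_0_0 : starCk (nat_lit 26) (nat_lit 11) (nat_lit 1) (nat_lit 5) (nat_lit 5) (nat_lit 0) (nat_lit 256) C3_0 = true := by decide +kernel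
def sc3_0 : stCov (nat_lit 2) (nat_lit 0) (Rl.cons (nat_lit 0) (nat_lit 5) Rl.nil) C3_0 = true := by decide +kernel
def wf3_1 : wfC (nat_lit 26) (nat_lit 11) C3_1 = true := by decide +kernel
def rf3_1 : rfCk (nat_lit 44) (nat_lit 31) (nat_lit 26) (nat_lit 11) (nat_lit 9) (nat_lit 0) (nat_lit 1) TL3 CL2 CL3 = true := by decide +kernel
def st3_1_0 : starCk (nat_lit 26) (nat_lit 11) (nat_lit 1) (nat_lit 5) (nat_lit 1) (nat_lit 2) (nat_lit 1) C3_1 = true := by decide +kernel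
def sc3_1 : stCov (nat_lit 0) (nat_lit 2) (Rl.cons (nat_lit 2) (nat_lit 1) Rl.nil) C3_1 = true := by decide +kernel
def wf3_2 : wfC (nat_lit 26) (nat_lit 11) C3_2 = true := by decide +kernel
def rf3_2 : rfCk (nat_lit 44) (nat_lit 31) (nat_lit 26) (nat_lit 11) (nat_lit 9) (nat_lit 0) (nat_lit 2) TL3 CL2 CL3 = true := by decide +kernel
def st3_2_0 : starCk (nat_lit 26) (nat_lit 11) (nat_lit 1) (nat_lit 5) (nat_lit 7) (nat_lit 33) (nat_lit 256) C3_2 = true := by decide +kernel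
def sc3_2 : stCov (nat_lit 2) (nat_lit 33) (Rl.cons (nat_lit 33) (nat_lit 7) Rl.nil) C3_2 = true := by decide +kernel
def wf3_3 : wfC (nat_lit 26) (nat_lit 11) C3_3 = true := by decide +kernel
def rf3_3 : rfCk (nat_lit 44) (nat_lit 31) (nat_lit 26) (nat_lit 11) (nat_lit 9) (nat_lit 0) (nat_lit 3) TL3 CL2 CL3 = true := by decide +kernel
def st3_3_0 : starCk (nat_lit 26) (nat_lit 11) (nat_lit 1) (nat_lit 5) (nat_lit 2) (nat_lit 31) (nat_lit 256) C3_3 = true := by decide +kernel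
def sc3_3 : stCov (nat_lit 2) (nat_lit 31) (Rl.cons (nat_lit 31) (nat_lit 2) Rl.nil) C3_3 = true := by decide +kernel
def wf3_4 : wfC (nat_lit 26) (nat_lit 11) C3_4 = true := by decide +kernel
def rf3_4 : rfCk (nat_lit 44) (nat_lit 31) (nat_lit 26) (nat_lit 11) (nat_lit 9) (nat_lit 0) (nat_lit 4) TL3 CL2 CL3 = true := by decide +kernel
def st3_4_0 : starCk (nat_lit 26) (nat_lit 11) (nat_lit 1) (nat_lit 5) (nat_lit 1) (nat_lit 1) (nat_lit 1) C3_4 = true := by decide +kernel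
def sc3_4 : stCov (nat_lit 0) (nat_lit 1) (Rl.cons (nat_lit 1) (nat_lit 1) Rl.nil) C3_4 = true := by decide +kernel
def wf3_8 : wfC (nat_lit 26) (nat_lit 11) C3_8 = true := by decide +kernel
def rf3_8 : rfCk (nat_lit 44) (nat_lit 31) (nat_lit 26) (nat_lit 11) (nat_lit 9) (nat_lit 0) (nat_lit 8) TL3 CL2 CL3 = true := by decide +kernel
def st3_8_0 : starCk (nat_lit 26) (nat_lit 11) (nat_lit 1) (nat_lit 5) (nat_lit 5) (nat_lit 7) (nat_lit 4096) C3_8 = true := by decide +kernel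
def sc3_8 : stCov (nat_lit 3) (nat_lit 7) (Rl.cons (nat_lit 7) (nat_lit 5) Rl.nil) C3_8 = true := by decide +kernel
def wf3_9 : wfC (nat_lit 26) (nat_lit 11) C3_9 = true := by decide +kernel
def rf3_9 : rfCk (nat_lit 44) (nat_lit 31) (nat_lit 26) (nat_lit 11) (nat_lit 9) (nat_lit 0) (nat_lit 9) TL3 CL2 CL3 = true := by decide +kernel
def st3_9_0 : starCk (nat_lit 26) (nat_lit 11) (nat_lit 1) (nat_lit 5) (nat_lit 8) (nat_lit 41) (nat_lit 256) C3_9 = true := by decide +kernel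
def sc3_9 : stCov (nat_lit 2) (nat_lit 41) (Rl.cons (nat_lit 41) (nat_lit 8) Rl.nil) C3_9 = true := by decide +kernel
def wf3_10 : wfC (nat_lit 26) (nat_lit 11) C3_10 = true := by decide +kernel
def rf3_10 : rfCk (nat_lit 44) (nat_lit 31) (nat_lit 26) (nat_lit 11) (nat_lit 9) (nat_lit 0) (nat_lit 10) TL3 CL2 CL3 = true := by decide +kernel
def st3_10_0 : starCk (nat_lit 26) (nat_lit 11) (nat_lit 1) (nat_lit 5) (nat_lit 6) (nat_lit 11) (nat_lit 1) C3_10 = true := by decide +kernel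
def sc3_10 : stCov (nat_lit 0) (nat_lit 11) (Rl.cons (nat_lit 11) (nat_lit 6) Rl.nil) C3_10 = true := by decide +kernel
def ti3_0 : tileCk (nat_lit 26) (nat_lit 11) (nat_lit 2) (nat_lit 5) (nat_lit 41) (nat_lit 11) (nat_lit 13) ZL3_0 CL3 = true := by decide +kernel
def zl3_0 : zlOK (nat_lit 41) ZL3_0 = true := by decide +kernel
def ti3_1 : tileCk (nat_lit 26) (nat_lit 11) (nat_lit 2) (nat_lit 5) (nat_lit 3) (nat_lit 11) (nat_lit 13) ZL3_1 CL3 = true := by decide +kernel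
def zl3_1 : zlOK (nat_lit 3) ZL3_1 = true := by decide +kernel
def tc3_0 : tiCov (nat_lit 1) (nat_lit 0) ZZ3 C3_0 = true := by decide +kernel
def tc3_1 : tiCov (nat_lit 1) (nat_lit 1) ZZ3 C3_1 = true := by decide +kernel
def tc3_2 : tiCov (nat_lit 1) (nat_lit 2) ZZ3 C3_2 = true := by decide +kernel
def tc3_3 : tiCov (nat_lit 1) (nat_lit 3) ZZ3 C3_3 = true := by decide +kernel
def tc3_4 : tiCov (nat_lit 1) (nat_lit 4) ZZ3 C3_4 = true := by decide +kernel
def tc3_8 : tiCov (nat_lit 1) (nat_lit 8) ZZ3 C3_8 = true := by decide +kernel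
def tc3_9 : tiCov (nat_lit 1) (nat_lit 9) ZZ3 C3_9 = true := by decide +kernel
def tc3_10 : tiCov (nat_lit 1) (nat_lit 10) ZZ3 C3_10 = true := by decide +kernel
def wf4_0 : wfC (nat_lit 13) (nat_lit 9) C4_0 = true := by decide +kernel
def rf4_0 : rfCk (nat_lit 26) (nat_lit 11) (nat_lit 13) (nat_lit 9) (nat_lit 6) (nat_lit 524288) (nat_lit 0) TL4 CL3 CL4 = true := by decide +kernel
def st4_0_0 : starCk (nat_lit 13) (nat_lit 9) (nat_lit 1) (nat_lit 4) (nat_lit 16) (nat_lit 0) (nat_lit 256) C4_0 = true := by decide +kernel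
def sc4_0 : stCov (nat_lit 2) (nat_lit 0) (Rl.cons (nat_lit 0) (nat_lit 16) Rl.nil) C4_0 = true := by decide +kernel
def wf4_1 : wfC (nat_lit 13) (nat_lit 9) C4_1 = true := by decide +kernel
def rf4_1 : rfCk (nat_lit 26) (nat_lit 11) (nat_lit 13) (nat_lit 9) (nat_lit 6) (nat_lit 524288) (nat_lit 1) TL4 CL3 CL4 = true := by decide +kernel
def st4_1_0 : starCk (nat_lit 13) (nat_lit 9) (nat_lit 1) (nat_lit 4) (nat_lit 1) (nat_lit 5) (nat_lit 16) C4_1 = true := by decide +kernel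
def sc4_1 : stCov (nat_lit 1) (nat_lit 5) (Rl.cons (nat_lit 5) (nat_lit 1) Rl.nil) C4_1 = true := by decide +kernel
def wf4_2 : wfC (nat_lit 13) (nat_lit 9) C4_2 = true := by decide +kernel
def rf4_2 : rfCk (nat_lit 26) (nat_lit 11) (nat_lit 13) (nat_lit 9) (nat_lit 6) (nat_lit 524288) (nat_lit 2) TL4 CL3 CL4 = true := by decide +kernel
def st4_2_0 : starCk (nat_lit 13) (nat_lit 9) (nat_lit 1) (nat_lit 4) (nat_lit 4) (nat_lit 28) (nat_lit 16) C4_2 = true := by decide +kernel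
def sc4_2 : stCov (nat_lit 1) (nat_lit 28) (Rl.cons (nat_lit 28) (nat_lit 4) Rl.nil) C4_2 = true := by decide +kernel
def wf4_3 : wfC (nat_lit 13) (nat_lit 9) C4_3 = true := by decide +kernel
def rf4_3 : rfCk (nat_lit 26) (nat_lit 11) (nat_lit 13) (nat_lit 9) (nat_lit 6) (nat_lit 524288) (nat_lit 3) TL4 CL3 CL4 = true := by decide +kernel
def st4_3_0 : starCk (nat_lit 13) (nat_lit 9) (nat_lit 1) (nat_lit 4) (nat_lit 1) (nat_lit 9) (nat_lit 16) C4_3 = true := by decide +kernel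
def sc4_3 : stCov (nat_lit 1) (nat_lit 9) (Rl.cons (nat_lit 9) (nat_lit 1) Rl.nil) C4_3 = true := by decide +kernel
def wf4_4 : wfC (nat_lit 13) (nat_lit 9) C4_4 = true := by decide +kernel
def rf4_4 : rfCk (nat_lit 26) (nat_lit 11) (nat_lit 13) (nat_lit 9) (nat_lit 6) (nat_lit 524288) (nat_lit 4) TL4 CL3 CL4 = true := by decide +kernel
def st4_4_0 : starCk (nat_lit 13) (nat_lit 9) (nat_lit 1) (nat_lit 4) (nat_lit 1) (nat_lit 5) (nat_lit 16) C4_4 = true := by decide +kernel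
def sc4_4 : stCov (nat_lit 1) (nat_lit 5) (Rl.cons (nat_lit 5) (nat_lit 1) Rl.nil) C4_4 = true := by decide +kernel
def wf4_9 : wfC (nat_lit 13) (nat_lit 9) C4_9 = true := by decide +kernel
def rf4_9 : rfCk (nat_lit 26) (nat_lit 11) (nat_lit 13) (nat_lit 9) (nat_lit 6) (nat_lit 524288) (nat_lit 9) TL4 CL3 CL4 = true := by decide +kernel
def st4_9_0 : starCk (nat_lit 13) (nat_lit 9) (nat_lit 1) (nat_lit 4) (nat_lit 4) (nat_lit 12) (nat_lit 16) C4_9 = true := by decide +kernel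
def sc4_9 : stCov (nat_lit 1) (nat_lit 12) (Rl.cons (nat_lit 12) (nat_lit 4) Rl.nil) C4_9 = true := by decide +kernel
def wf4_10 : wfC (nat_lit 13) (nat_lit 9) C4_10 = true := by decide +kernel
def rf4_10 : rfCk (nat_lit 26) (nat_lit 11) (nat_lit 13) (nat_lit 9) (nat_lit 6) (nat_lit 524288) (nat_lit 10) TL4 CL3 CL4 = true := by decide +kernel
def st4_10_0 : starCk (nat_lit 13) (nat_lit 9) (nat_lit 1) (nat_lit 4) (nat_lit 8) (nat_lit 28) (nat_lit 4096) C4_10 = true := by decide +kernel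
def sc4_10 : stCov (nat_lit 3) (nat_lit 28) (Rl.cons (nat_lit 28) (nat_lit 8) Rl.nil) C4_10 = true := by decide +kernel
def ti4_0 : tileCk (nat_lit 13) (nat_lit 9) (nat_lit 2) (nat_lit 4) (nat_lit 8) (nat_lit 11) (nat_lit 13) ZL4_0 CL4 = true := by decide +kernel
def zl4_0 : zlOK (nat_lit 8) ZL4_0 = true := by decide +kernel
def ti4_1 : tileCk (nat_lit 13) (nat_lit 9) (nat_lit 2) (nat_lit 4) (nat_lit 9) (nat_lit 11) (nat_lit 13) ZL4_1 CL4 = true := by decide +kernel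
def zl4_1 : zlOK (nat_lit 9) ZL4_1 = true := by decide +kernel
def tc4_0 : tiCov (nat_lit 1) (nat_lit 0) ZZ4 C4_0 = true := by decide +kernel
def tc4_1 : tiCov (nat_lit 1) (nat_lit 1) ZZ4 C4_1 = true := by decide +kernel
def tc4_2 : tiCov (nat_lit 1) (nat_lit 2) ZZ4 C4_2 = true := by decide +kernel
def tc4_3 : tiCov (nat_lit 1) (nat_lit 3) ZZ4 C4_3 = true := by decide +kernel
def tc4_4 : tiCov (nat_lit 1) (nat_lit 4) ZZ4 C4_4 = true := by decide +kernel
def tc4_9 : tiCov (nat_lit 1) (nat_lit 9) ZZ4 C4_9 = true := by decide +kernel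
def tc4_10 : tiCov (nat_lit 1) (nat_lit 10) ZZ4 C4_10 = true := by decide +kernel
def de4_0 : deadCk (nat_lit 13) (nat_lit 9) C4_0 = true := by decide +kernel
def de4_1 : deadCk (nat_lit 13) (nat_lit 9) C4_1 = true := by decide +kernel
def de4_2 : deadCk (nat_lit 13) (nat_lit 9) C4_2 = true := by decide +kernel
def de4_3 : deadCk (nat_lit 13) (nat_lit 9) C4_3 = true := by decide +kernel
def de4_4 : deadCk (nat_lit 13) (nat_lit 9) C4_4 = true := by decide +kernel
def de4_9 : deadCk (nat_lit 13) (nat_lit 9) C4_9 = true := by decide +kernel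
def de4_10 : deadCk (nat_lit 13) (nat_lit 9) C4_10 = true := by decide +kernel
def wf1_5 : wfC (nat_lit 61) (nat_lit 13) C1_5 = true := by decide +kernel
def wf1_6 : wfC (nat_lit 61) (nat_lit 13) C1_6 = true := by decide +kernel
def wf1_7 : wfC (nat_lit 61) (nat_lit 13) C1_7 = true := by decide +kernel
def wf1_12 : wfC (nat_lit 61) (nat_lit 13) C1_12 = true := by decide +kernel
def rf1_5 : rfCk (nat_lit 59) (nat_lit 5) (nat_lit 61) (nat_lit 13) (nat_lit 1) (nat_lit 262144) (nat_lit 5) TL1 CL0 CL1 = true := by decide +kernel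
def rf1_6 : rfCk (nat_lit 59) (nat_lit 5) (nat_lit 61) (nat_lit 13) (nat_lit 1) (nat_lit 262144) (nat_lit 6) TL1 CL0 CL1 = true := by decide +kernel
def rf1_7 : rfCk (nat_lit 59) (nat_lit 5) (nat_lit 61) (nat_lit 13) (nat_lit 1) (nat_lit 262144) (nat_lit 7) TL1 CL0 CL1 = true := by decide +kernel
def rf1_12 : rfCk (nat_lit 59) (nat_lit 5) (nat_lit 61) (nat_lit 13) (nat_lit 1) (nat_lit 262144) (nat_lit 12) TL1 CL0 CL1 = true := by decide +kernel
def sc1_5 : stCov (nat_lit 0) (nat_lit 0) Rl.nil C1_5 = true := by decide +kernel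
def sc1_6 : stCov (nat_lit 0) (nat_lit 0) Rl.nil C1_6 = true := by decide +kernel
def sc1_7 : stCov (nat_lit 0) (nat_lit 0) Rl.nil C1_7 = true := by decide +kernel
def sc1_12 : stCov (nat_lit 0) (nat_lit 0) Rl.nil C1_12 = true := by decide +kernel
def tc1_5 : tiCov (nat_lit 1) (nat_lit 5) ZZ1 C1_5 = true := by decide +kernel
def tc1_6 : tiCov (nat_lit 1) (nat_lit 6) ZZ1 C1_6 = true := by decide +kernel
def tc1_7 : tiCov (nat_lit 1) (nat_lit 7) ZZ1 C1_7 = true := by decide +kernel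
def tc1_12 : tiCov (nat_lit 1) (nat_lit 12) ZZ1 C1_12 = true := by decide +kernel
def wf2_5 : wfC (nat_lit 44) (nat_lit 31) C2_5 = true := by decide +kernel
def wf2_6 : wfC (nat_lit 44) (nat_lit 31) C2_6 = true := by decide +kernel
def wf2_7 : wfC (nat_lit 44) (nat_lit 31) C2_7 = true := by decide +kernel
def wf2_12 : wfC (nat_lit 44) (nat_lit 31) C2_12 = true := by decide +kernel
def rf2_5 : rfCk (nat_lit 61) (nat_lit 13) (nat_lit 44) (nat_lit 31) (nat_lit 9) (nat_lit 0) (nat_lit 5) TL2 CL1 CL2 = true := by decide +kernel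
def rf2_6 : rfCk (nat_lit 61) (nat_lit 13) (nat_lit 44) (nat_lit 31) (nat_lit 9) (nat_lit 0) (nat_lit 6) TL2 CL1 CL2 = true := by decide +kernel
def rf2_7 : rfCk (nat_lit 61) (nat_lit 13) (nat_lit 44) (nat_lit 31) (nat_lit 9) (nat_lit 0) (nat_lit 7) TL2 CL1 CL2 = true := by decide +kernel
def rf2_12 : rfCk (nat_lit 61) (nat_lit 13) (nat_lit 44) (nat_lit 31) (nat_lit 9) (nat_lit 0) (nat_lit 12) TL2 CL1 CL2 = true := by decide +kernel
def sc2_5 : stCov (nat_lit 0) (nat_lit 0) Rl.nil C2_5 = true := by decide +kernel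
def sc2_6 : stCov (nat_lit 0) (nat_lit 0) Rl.nil C2_6 = true := by decide +kernel
def sc2_7 : stCov (nat_lit 0) (nat_lit 0) Rl.nil C2_7 = true := by decide +kernel
def sc2_12 : stCov (nat_lit 0) (nat_lit 0) Rl.nil C2_12 = true := by decide +kernel
def tc2_5 : tiCov (nat_lit 1) (nat_lit 5) ZZ2 C2_5 = true := by decide +kernel
def tc2_6 : tiCov (nat_lit 1) (nat_lit 6) ZZ2 C2_6 = true := by decide +kernel
def tc2_7 : tiCov (nat_lit 1) (nat_lit 7) ZZ2 C2_7 = true := by decide +kernel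
def tc2_12 : tiCov (nat_lit 1) (nat_lit 12) ZZ2 C2_12 = true := by decide +kernel
def wf3_5 : wfC (nat_lit 26) (nat_lit 11) C3_5 = true := by decide +kernel
def wf3_6 : wfC (nat_lit 26) (nat_lit 11) C3_6 = true := by decide +kernel
def wf3_7 : wfC (nat_lit 26) (nat_lit 11) C3_7 = true := by decide +kernel
def wf3_11 : wfC (nat_lit 26) (nat_lit 11) C3_11 = true := by decide +kernel
def wf3_12 : wfC (nat_lit 26) (nat_lit 11) C3_12 = true := by decide +kernel
def rf3_5 : rfCk (nat_lit 44) (nat_lit 31) (nat_lit 26) (nat_lit 11) (nat_lit 9) (nat_lit 0) (nat_lit 5) TL3 CL2 CL3 = true := by decide +kernel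
def rf3_6 : rfCk (nat_lit 44) (nat_lit 31) (nat_lit 26) (nat_lit 11) (nat_lit 9) (nat_lit 0) (nat_lit 6) TL3 CL2 CL3 = true := by decide +kernel
def rf3_7 : rfCk (nat_lit 44) (nat_lit 31) (nat_lit 26) (nat_lit 11) (nat_lit 9) (nat_lit 0) (nat_lit 7) TL3 CL2 CL3 = true := by decide +kernel
def rf3_11 : rfCk (nat_lit 44) (nat_lit 31) (nat_lit 26) (nat_lit 11) (nat_lit 9) (nat_lit 0) (nat_lit 11) TL3 CL2 CL3 = true := by decide +kernel
def rf3_12 : rfCk (nat_lit 44) (nat_lit 31) (nat_lit 26) (nat_lit 11) (nat_lit 9) (nat_lit 0) (nat_lit 12) TL3 CL2 CL3 = true := by decide +kernel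
def sc3_5 : stCov (nat_lit 0) (nat_lit 0) Rl.nil C3_5 = true := by decide +kernel
def sc3_6 : stCov (nat_lit 0) (nat_lit 0) Rl.nil C3_6 = true := by decide +kernel
def sc3_7 : stCov (nat_lit 0) (nat_lit 0) Rl.nil C3_7 = true := by decide +kernel
def sc3_11 : stCov (nat_lit 0) (nat_lit 0) Rl.nil C3_11 = true := by decide +kernel
def sc3_12 : stCov (nat_lit 0) (nat_lit 0) Rl.nil C3_12 = true := by decide +kernel
def tc3_5 : tiCov (nat_lit 1) (nat_lit 5) ZZ3 C3_5 = true := by decide +kernel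
def tc3_6 : tiCov (nat_lit 1) (nat_lit 6) ZZ3 C3_6 = true := by decide +kernel
def tc3_7 : tiCov (nat_lit 1) (nat_lit 7) ZZ3 C3_7 = true := by decide +kernel
def tc3_11 : tiCov (nat_lit 1) (nat_lit 11) ZZ3 C3_11 = true := by decide +kernel
def tc3_12 : tiCov (nat_lit 1) (nat_lit 12) ZZ3 C3_12 = true := by decide +kernel
def wf4_5 : wfC (nat_lit 13) (nat_lit 9) C4_5 = true := by decide +kernel
def wf4_6 : wfC (nat_lit 13) (nat_lit 9) C4_6 = true := by decide +kernel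
def wf4_7 : wfC (nat_lit 13) (nat_lit 9) C4_7 = true := by decide +kernel
def wf4_8 : wfC (nat_lit 13) (nat_lit 9) C4_8 = true := by decide +kernel
def wf4_11 : wfC (nat_lit 13) (nat_lit 9) C4_11 = true := by decide +kernel
def wf4_12 : wfC (nat_lit 13) (nat_lit 9) C4_12 = true := by decide +kernel
def rf4_5 : rfCk (nat_lit 26) (nat_lit 11) (nat_lit 13) (nat_lit 9) (nat_lit 6) (nat_lit 524288) (nat_lit 5) TL4 CL3 CL4 = true := by decide +kernel
def rf4_6 : rfCk (nat_lit 26) (nat_lit 11) (nat_lit 13) (nat_lit 9) (nat_lit 6) (nat_lit 524288) (nat_lit 6) TL4 CL3 CL4 = true := by decide +kernel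
def rf4_7 : rfCk (nat_lit 26) (nat_lit 11) (nat_lit 13) (nat_lit 9) (nat_lit 6) (nat_lit 524288) (nat_lit 7) TL4 CL3 CL4 = true := by decide +kernel
def rf4_8 : rfCk (nat_lit 26) (nat_lit 11) (nat_lit 13) (nat_lit 9) (nat_lit 6) (nat_lit 524288) (nat_lit 8) TL4 CL3 CL4 = true := by decide +kernel
def rf4_11 : rfCk (nat_lit 26) (nat_lit 11) (nat_lit 13) (nat_lit 9) (nat_lit 6) (nat_lit 524288) (nat_lit 11) TL4 CL3 CL4 = true := by decide +kernel
def rf4_12 : rfCk (nat_lit 26) (nat_lit 11) (nat_lit 13) (nat_lit 9) (nat_lit 6) (nat_lit 524288) (nat_lit 12) TL4 CL3 CL4 = true := by decide +kernel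
def sc4_5 : stCov (nat_lit 0) (nat_lit 0) Rl.nil C4_5 = true := by decide +kernel
def sc4_6 : stCov (nat_lit 0) (nat_lit 0) Rl.nil C4_6 = true := by decide +kernel
def sc4_7 : stCov (nat_lit 0) (nat_lit 0) Rl.nil C4_7 = true := by decide +kernel
def sc4_8 : stCov (nat_lit 2) (nat_lit 0) Rl.nil C4_8 = true := by decide +kernel
def sc4_11 : stCov (nat_lit 0) (nat_lit 0) Rl.nil C4_11 = true := by decide +kernel
def sc4_12 : stCov (nat_lit 0) (nat_lit 0) Rl.nil C4_12 = true := by decide +kernel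
def tc4_5 : tiCov (nat_lit 1) (nat_lit 5) ZZ4 C4_5 = true := by decide +kernel
def tc4_6 : tiCov (nat_lit 1) (nat_lit 6) ZZ4 C4_6 = true := by decide +kernel
def tc4_7 : tiCov (nat_lit 1) (nat_lit 7) ZZ4 C4_7 = true := by decide +kernel
def tc4_8 : tiCov (nat_lit 1) (nat_lit 8) ZZ4 C4_8 = true := by decide +kernel
def tc4_11 : tiCov (nat_lit 1) (nat_lit 11) ZZ4 C4_11 = true := by decide +kernel
def tc4_12 : tiCov (nat_lit 1) (nat_lit 12) ZZ4 C4_12 = true := by decide +kernel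
def de4_5 : deadCk (nat_lit 13) (nat_lit 9) C4_5 = true := by decide +kernel
def de4_6 : deadCk (nat_lit 13) (nat_lit 9) C4_6 = true := by decide +kernel
def de4_7 : deadCk (nat_lit 13) (nat_lit 9) C4_7 = true := by decide +kernel
def de4_8 : deadCk (nat_lit 13) (nat_lit 9) C4_8 = true := by decide +kernel
def de4_11 : deadCk (nat_lit 13) (nat_lit 9) C4_11 = true := by decide +kernel
def de4_12 : deadCk (nat_lit 13) (nat_lit 9) C4_12 = true := by decide +kernel

end Pool.Agent.NNr.R11_1_5_6
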